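import Pool.Agent.Helper676.PC16
import Pool.Agent.Helper676.PCA

set_option autoImplicit false

/-!
# MP_3347f5_an: recovering a parabolic conductivity from final-time data

For every bounded connected smooth domain `Ω ⊆ ℝⁿ`, `n ≥ 1`, every `T > 0` and `K ≥ 1` there are
admissible data `(g,h)` such that the final state `u_a(·,T)` determines every coefficient
`a ∈ 𝒜_K` with prescribed boundary trace (Q1, positive answer in all dimensions).
-/

namespace Pool.Agent.Results.MP_3347f5_an.FinalTimeUniqueness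

open Filter Topology Set
open scoped ContDiff

/-- Euclidean space `ℝⁿ`. -/
abbrev E (n : ℕ) := EuclideanSpace ℝ (Fin n)

variable {n : ℕ}

/-- `Ω` is a bounded, connected, (nonempty) open set with `C^∞` boundary: near every boundary point
`x` the set `Ω` is `{ρ < 0}` for a smooth function `ρ` with nonvanishing differential at `x`. -/
structure SmoothDomain (Ω : Set (E n)) : Prop where
  isOpen : IsOpen Ω
  isConnected : IsConnected Ω
  isBounded : Bornology.IsBounded Ω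
  smooth : ∀ x ∈ frontier Ω, ∃ V : Set (E n), IsOpen V ∧ x ∈ V ∧ ∃ ρ : E n → ℝ,
    ContDiffOn ℝ ∞ ρ V ∧ fderiv ℝ ρ x ≠ 0 ∧ Ω ∩ V = {y | ρ y < 0} ∩ V

/-- `a ∈ C²(Ω̄)`: `a` is continuous on `Ω̄`, twice continuously differentiable in `Ω`, and its first
and second derivatives extend continuously to `Ω̄`. -/
structure C2Closure (Ω : Set (E n)) (a : E n → ℝ) : Prop where
  cont : ContinuousOn a (closure Ω)
  diff : ContDiffOn ℝ 2 a Ω
  ext1 : ∃ D : E n → (E n →L[ℝ] ℝ), ContinuousOn D (closure Ω) ∧ ∀ x ∈ Ω, D x = fderiv ℝ a x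
  ext2 : ∃ D : E n → (E n →L[ℝ] E n →L[ℝ] ℝ), ContinuousOn D (closure Ω) ∧
    ∀ x ∈ Ω, D x = fderiv ℝ (fderiv ℝ a) x

/-- The coefficient class `𝒜_K = {a ∈ C²(Ω̄) : K⁻¹ ≤ a ≤ K on Ω̄}`. -/
def coeffClass (Ω : Set (E n)) (K : ℝ) : Set (E n → ℝ) :=
  {a | C2Closure Ω a ∧ ∀ x ∈ closure Ω, K⁻¹ ≤ a x ∧ a x ≤ K}

/-- Admissible data: `g ∈ C(∂Ω × [0,T])`, `h ∈ C(Ω̄)`, `g(·,0) = h` on `∂Ω`. -/
structure Admissible (Ω : Set (E n)) (T : ℝ) (g : E n → ℝ → ℝ) (h : E n → ℝ) : Prop where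
  g_cont : ContinuousOn (fun q : E n × ℝ => g q.1 q.2) (frontier Ω ×ˢ Icc 0 T)
  h_cont : ContinuousOn h (closure Ω)
  compat : ∀ x ∈ frontier Ω, g x 0 = h x

/-- `div (a ∇u)(x) = ∑ᵢ ∂ᵢ (a ∂ᵢ u)(x)`. -/
noncomputable def divAGrad (a u : E n → ℝ) (x : E n) : ℝ :=
  ∑ i : Fin n, fderiv ℝ (fun y => a y * fderiv ℝ u y (EuclideanSpace.single i 1)) x
    (EuclideanSpace.single i 1)

/-- `u ∈ C^{2,1}(Ω × (0,T])`: `u`, `∂ₜu`, `∇ₓu`, `∇ₓ²u` exist and are continuous on `Ω × (0,T]`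
(the time derivative at `t = T` is the left derivative). -/
structure C21 (Ω : Set (E n)) (T : ℝ) (u : E n → ℝ → ℝ) : Prop where
  space : ∀ t ∈ Ioc 0 T, ContDiffOn ℝ 2 (fun x => u x t) Ω
  time : ∀ x ∈ Ω, DifferentiableOn ℝ (u x) (Ioc 0 T)
  cont : ContinuousOn (fun q : E n × ℝ => u q.1 q.2) (Ω ×ˢ Ioc 0 T)
  cont_t : ContinuousOn (fun q : E n × ℝ => derivWithin (u q.1) (Ioc 0 T) q.2) (Ω ×ˢ Ioc 0 T)
  cont_x : ContinuousOn (fun q : E n × ℝ => fderiv ℝ (fun x => u x q.2) q.1) (Ω ×ˢ Ioc 0 T)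
  cont_xx : ContinuousOn (fun q : E n × ℝ => fderiv ℝ (fderiv ℝ (fun x => u x q.2)) q.1)
    (Ω ×ˢ Ioc 0 T)

/-- `u = u_a` is a solution in `C^{2,1}(Ω × (0,T]) ∩ C(Ω̄ × [0,T])` of
`u_t - div(a∇u) = 0` in `Ω × (0,T)`, `u = g` on `∂Ω × (0,T)`, `u(·,0) = h` in `Ω`. -/
structure IsSolution (Ω : Set (E n)) (T : ℝ) (a : E n → ℝ) (g : E n → ℝ → ℝ) (h : E n → ℝ)
    (u : E n → ℝ → ℝ) : Prop where
  c21 : C21 Ω T u
  cont : ContinuousOn (fun q : E n × ℝ => u q.1 q.2) (closure Ω ×ˢ Icc 0 T)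
  pde : ∀ x ∈ Ω, ∀ t ∈ Ioo 0 T, deriv (u x) t - divAGrad a (fun y => u y t) x = 0
  bdry : ∀ x ∈ frontier Ω, ∀ t ∈ Ioo 0 T, u x t = g x t
  init : ∀ x ∈ Ω, u x 0 = h x

open Pool.Agent.Helper676 in
lemma toHS {Ω : Set (E n)} (hΩ : IsOpen Ω) {T : ℝ} (hT : 0 < T) {a : E n → ℝ}
    (ha : ContDiffOn ℝ 1 a Ω) {G : ℝ → ℝ} (hG : Continuous G) {u : E n → ℝ → ℝ}
    (h : IsSolution Ω T a (fun _ t => G t) (fun _ => 0) u) :
    PC.HS Ω 0 T a u (fun x t => derivWithin (u x) (Ioc 0 T) t) G := by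
  have hwd : ∀ x ∈ Ω, ∀ t ∈ Ioo (0 : ℝ) T,
      HasDerivAt (u x) (derivWithin (u x) (Ioc 0 T) t) t := by
    intro x hx t ht
    have h1 : DifferentiableWithinAt ℝ (u x) (Ioc 0 T) t := h.c21.time x hx t ⟨ht.1, ht.2.le⟩
    exact h1.hasDerivWithinAt.hasDerivAt (Ioc_mem_nhds ht.1 ht.2)
  have hpde : ∀ x ∈ Ω, ∀ t ∈ Ioo (0 : ℝ) T,
      derivWithin (u x) (Ioc 0 T) t = PC.divAGrad a (fun y => u y t) x := by
    intro x hx t ht
    have h1 := h.pde x hx t ht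
    rw [(hwd x hx t ht).deriv] at h1
    exact sub_eq_zero.1 h1
  refine ⟨h.cont, ?_, ?_, h.c21.space, hwd, h.c21.cont_t, ?_⟩
  · -- initial value on the closure
    have h1 : ContinuousOn (fun x => u x 0) (closure Ω) :=
      h.cont.comp (f := fun x : E n => (x, (0 : ℝ))) (by fun_prop)
        (fun x hx => ⟨hx, le_rfl, hT.le⟩)
    have h2 : IsClosed (closure Ω ∩ (fun x => u x 0) ⁻¹' {0}) :=
      h1.preimage_isClosed_of_isClosed isClosed_closure isClosed_singleton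
    have h3 : closure Ω ⊆ closure Ω ∩ (fun x => u x 0) ⁻¹' {0} :=
      closure_minimal (fun x hx => ⟨subset_closure hx, h.init x hx⟩) h2
    exact fun x hx => (h3 hx).2
  · -- boundary values on the closed interval
    intro x hx t ht
    have h1 : ContinuousOn (fun t => u x t - G t) (Icc 0 T) :=
      (h.cont.comp (f := fun t : ℝ => (x, t)) (by fun_prop)
        (fun t ht => ⟨frontier_subset_closure hx, ht⟩)).sub hG.continuousOn
    have h2 : IsClosed (Icc 0 T ∩ (fun t => u x t - G t) ⁻¹' {0}) :=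
      h1.preimage_isClosed_of_isClosed isClosed_Icc isClosed_singleton
    have h3 : Icc 0 T ⊆ Icc 0 T ∩ (fun t => u x t - G t) ⁻¹' {0} := by
      rw [← closure_Ioo hT.ne]
      refine closure_minimal (fun t ht => ?_) (by rwa [closure_Ioo hT.ne])
      rw [closure_Ioo hT.ne]
      exact ⟨⟨ht.1.le, ht.2.le⟩, sub_eq_zero.2 (h.bdry x hx t ht)⟩
    exact sub_eq_zero.1 (h3 ht).2
  · -- the equation up to `t = T`
    intro x hx t ht
    rcases eq_or_lt_of_le ht.2 with h0 | h0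
    · subst h0
      have c1 : ContinuousOn (fun s => derivWithin (u x) (Ioc 0 t) s) (Ioc 0 t) :=
        h.c21.cont_t.comp (f := fun s : ℝ => (x, s)) (by fun_prop) (fun s hs => ⟨hx, hs⟩)
      have c2 : ContinuousOn (fun s => fderiv ℝ (fun x => u x s) x) (Ioc 0 t) :=
        h.c21.cont_x.comp (f := fun s : ℝ => (x, s)) (by fun_prop) (fun s hs => ⟨hx, hs⟩)
      have c3 : ContinuousOn (fun s => fderiv ℝ (fderiv ℝ (fun x => u x s)) x) (Ioc 0 t) :=
        h.c21.cont_xx.comp (f := fun s : ℝ => (x, s)) (by fun_prop) (fun s hs => ⟨hx, hs⟩)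
      have c4 : ContinuousOn (fun s => PC.divAGrad a (fun y => u y s) x) (Ioc 0 t) := by
        have c5 : ContinuousOn (fun s => ∑ i : Fin n,
            (a x * fderiv ℝ (fderiv ℝ (fun x => u x s)) x (EuclideanSpace.single i 1)
              (EuclideanSpace.single i 1) + fderiv ℝ (fun x => u x s) x
                (EuclideanSpace.single i 1) * fderiv ℝ a x (EuclideanSpace.single i 1)))
            (Ioc 0 t) := by
          apply continuousOn_finsetSum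
          intro i _
          exact (continuousOn_const.mul ((c3.clm_apply continuousOn_const).clm_apply
            continuousOn_const)).add ((c2.clm_apply continuousOn_const).mul continuousOn_const)
        exact c5.congr fun s hs => PC.divAGrad_expand hΩ ha (h.c21.space s hs) hx
      have l1 : Tendsto (fun s => derivWithin (u x) (Ioc 0 t) s) (𝓝[Ioo 0 t] t)
          (𝓝 (derivWithin (u x) (Ioc 0 t) t)) :=
        (c1 t ht).mono_left (nhdsWithin_mono _ Ioo_subset_Ioc_self)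
      have l2 : Tendsto (fun s => PC.divAGrad a (fun y => u y s) x) (𝓝[Ioo 0 t] t)
          (𝓝 (PC.divAGrad a (fun y => u y t) x)) :=
        (c4 t ht).mono_left (nhdsWithin_mono _ Ioo_subset_Ioc_self)
      have hnb : (𝓝[Ioo 0 t] t).NeBot := right_nhdsWithin_Ioo_neBot hT
      refine tendsto_nhds_unique (l1.congr' ?_) l2
      filter_upwards [self_mem_nhdsWithin] with s hs
      exact hpde x hx s hs
    · exact hpde x hx t ⟨ht.1, h0⟩

open Pool.Agent.Helper676 in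
/-- **Q1, positive answer.**  For every `n ≥ 1`, every bounded connected smooth domain `Ω ⊆ ℝⁿ`,
every `T > 0` and `K ≥ 1` there are admissible data `(g,h)` such that for every boundary trace `β`
and all coefficients `a₁, a₂ ∈ 𝒜_K` with trace `β`: if the solutions `u₁ = u_{a₁}`, `u₂ = u_{a₂}`
agree at time `T` in `Ω`, then `a₁ = a₂` in `Ω`. -/
theorem result (n : ℕ) (hn : 1 ≤ n) (Ω : Set (E n)) (hΩ : SmoothDomain Ω) (T : ℝ) (hT : 0 < T)
    (K : ℝ) (hK : 1 ≤ K) :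
    ∃ (g : E n → ℝ → ℝ) (h : E n → ℝ), Admissible Ω T g h ∧
      ∀ β : E n → ℝ, ∀ a₁ ∈ coeffClass Ω K, ∀ a₂ ∈ coeffClass Ω K,
        (∀ x ∈ frontier Ω, a₁ x = β x) → (∀ x ∈ frontier Ω, a₂ x = β x) →
        ∀ u₁ u₂ : E n → ℝ → ℝ, IsSolution Ω T a₁ g h u₁ → IsSolution Ω T a₂ g h u₂ →
          (∀ x ∈ Ω, u₁ x T = u₂ x T) → ∀ x ∈ Ω, a₁ x = a₂ x := by
  obtain ⟨r0, hr0, hcork⟩ := PC.corkscrew hΩ.isBounded hΩ.isOpen hΩ.smooth
  obtain ⟨χ, c, hχ, hχ0, hcore⟩ := PC.core (n := n) (by omega) hK hΩ.isOpen hΩ.isBounded hr0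
    hcork hT
  have hG : Continuous (PC.GG χ c T) := by
    unfold PC.GG
    exact hχ.mul (Real.continuous_exp.comp (by fun_prop))
  refine ⟨fun _ t => PC.GG χ c T t, fun _ => 0, ⟨?_, continuousOn_const, ?_⟩, ?_⟩
  · exact (hG.comp continuous_snd).continuousOn
  · intro x _
    simp only [PC.GG, hχ0, zero_mul]
  · intro β a₁ ha₁ a₂ ha₂ hb₁ hb₂ u₁ u₂ hu₁ hu₂ hT12
    have d1 : ContDiffOn ℝ 1 a₁ Ω := ha₁.1.diff.of_le (by norm_num)
    have d2 : ContDiffOn ℝ 1 a₂ Ω := ha₂.1.diff.of_le (by norm_num)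
    have hTI : T ∈ Ioc 0 T := ⟨hT, le_rfl⟩
    exact hcore a₁ a₂ u₁ _ u₂ _ ha₁.1.cont ha₂.1.cont d1 d2 ha₁.2 ha₂.2
      (fun x hx => (hb₁ x hx).trans (hb₂ x hx).symm)
      (toHS hΩ.isOpen hT d1 hG hu₁) (toHS hΩ.isOpen hT d2 hG hu₂)
      (fun x hx => (hu₁.c21.time x hx T hTI).hasDerivWithinAt)
      (fun x hx => (hu₂.c21.time x hx T hTI).hasDerivWithinAt) hT12

end Pool.Agent.Results.MP_3347f5_an.FinalTimeUniqueness
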